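import Mathlib

namespace Pool.Agent.Results.MP_9f131e_lc.NotConj

open FirstOrder FirstOrder.Language Filter

/-- `A` satisfies the identities `Θ` -/
def InVar (L : FirstOrder.Language.{0, 0}) (Θ : Set (L.Term ℕ × L.Term ℕ)) (A : Type) [L.Structure A] : Prop :=
  ∀ p ∈ Θ, ∀ v : ℕ → A, p.1.realize v = p.2.realize v

/-- `H` is a free algebra of the variety on a finite set -/
def FGFree (L : FirstOrder.Language.{0, 0}) (Θ : Set (L.Term ℕ × L.Term ℕ)) (H : Type) [L.Structure H] :
    Prop :=
  InVar L Θ H ∧ ∃ (m : ℕ) (ι : Fin m → H), ∀ (A : Type) [L.Structure A], InVar L Θ A →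
    ∀ v : Fin m → A, ∃! φ : H →[L] A, φ ∘ ι = v

/-- equal logical kernels -/
def SameType (L : FirstOrder.Language.{0, 0}) {H K : Type} [L.Structure H] [L.Structure K] {n : ℕ}
    (μ : Fin n → H) (ν : Fin n → K) : Prop :=
  ∀ φ : L.Formula (Fin n), φ.Realize μ ↔ φ.Realize ν

/-- isotypic algebras -/
def Isotypic (L : FirstOrder.Language.{0, 0}) (H K : Type) [L.Structure H] [L.Structure K] : Prop :=
  ∀ n : ℕ, (∀ μ : Fin n → H, ∃ ν : Fin n → K, SameType L μ ν) ∧
    ∀ ν : Fin n → K, ∃ μ : Fin n → H, SameType L μ ν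

def Fn : ℕ → Type
  | 1 => ℕ × Bool
  | _ => Empty

def LL : FirstOrder.Language.{0, 0} := ⟨Fn, fun _ => Empty⟩

def W : Type := Option (ℕ × Bool)

def par : W → Bool
  | none => false
  | some p => p.2

def op (p : ℕ × Bool) (w : W) : W := some (p.1, xor p.2 (par w))

instance : LL.Structure W where
  funMap {n} := match n with
    | 0 => fun f => Empty.elim f
    | 1 => fun f x => op f (x 0)
    | _ + 2 => fun f => Empty.elim f
  RelMap r := Empty.elim r

def ap (p : ℕ × Bool) (t : LL.Term ℕ) : LL.Term ℕ := Term.func (l := 1) p ![t]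

def TT : Set (LL.Term ℕ × LL.Term ℕ) :=
  {q | ∃ p r : ℕ × Bool, q = (ap p (ap r (.var 0)), ap (p.1, xor p.2 r.2) (.var 0))}

lemma cv {A B : Type} (g : A → B) (a : A) : g ∘ ![a] = ![g a] := by
  funext i; fin_cases i; rfl

lemma ap_real {A : Type} [LL.Structure A] (p : ℕ × Bool) (t : LL.Term ℕ) (v : ℕ → A) :
    (ap p t).realize v = Structure.funMap (L := LL) (n := 1) p ![t.realize v] := by
  simp only [ap, Term.realize]
  congr
  funext i
  fin_cases i
  rfl

def sw (k : ℕ) : W → W
  | none => some (k, true)
  | some (i, b) => if i < k then some (i, !b) else if b = false then some (i + 1, true)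
      else if i = k then none else some (i - 1, false)

lemma sw_inv (k : ℕ) : Function.Involutive (sw k) := by
  rintro (_ | ⟨i, _ | _⟩)
  · simp [sw]
  · by_cases h : i < k
    · simp [sw, h]
    · simp [sw, h, show ¬ i + 1 < k by omega, show i + 1 ≠ k by omega]
  · by_cases h : i < k
    · simp [sw, h]
    · by_cases h' : i = k
      · simp [sw, h']
      · simp [sw, h, h', show ¬ i - 1 < k by omega, show i - 1 + 1 = i by omega]

lemma par_sw (k : ℕ) (w : W) : par (sw k w) = !par w := by
  rcases w with _ | ⟨i, _ | _⟩ <;> simp only [sw] <;> (try split_ifs) <;> simp_all [par]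

lemma term_sw {α : Type} (t : LL.Term α) :
    ∀ᶠ k : ℕ in atTop, ∀ v : α → W, t.realize (sw k ∘ v) = sw k (t.realize v) := by
  induction t with
  | var a => exact .of_forall fun _ _ => rfl
  | @func n f ts ih =>
    match n, f with
    | 0, f => exact Empty.elim f
    | 1, f =>
      filter_upwards [ih 0, eventually_gt_atTop (f : ℕ × Bool).1] with k h1 h2 v
      change op f ((ts 0).realize _) = sw k (op f ((ts 0).realize _))
      rw [h1, op, par_sw]
      simp [op, sw, h2]
    | _ + 2, f => exact Empty.elim f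

lemma form_sw {α : Type} {n : ℕ} (φ : LL.BoundedFormula α n) :
    ∀ᶠ k : ℕ in atTop, ∀ (v : α → W) (xs : Fin n → W),
      φ.Realize (sw k ∘ v) (sw k ∘ xs) ↔ φ.Realize v xs := by
  induction φ with
  | falsum => exact .of_forall fun _ _ _ => Iff.rfl
  | equal t1 t2 =>
    filter_upwards [term_sw t1, term_sw t2] with k h1 h2 v xs
    simp only [BoundedFormula.Realize]
    rw [← Sum.comp_elim, h1, h2, (sw_inv k).injective.eq_iff]
  | rel r _ => exact Empty.elim r
  | imp _ _ ih1 ih2 =>
    filter_upwards [ih1, ih2] with k h1 h2 v xs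
    simp only [BoundedFormula.Realize, h1, h2]
  | all _ ih =>
    filter_upwards [ih] with k h v xs
    simp only [BoundedFormula.Realize]
    rw [(sw_inv k).surjective.forall]
    exact forall_congr' fun x => by rw [← h v (Fin.snoc xs x), Fin.comp_snoc]

theorem result : ∃ (L : FirstOrder.Language.{0, 0}) (_ : L.IsAlgebraic) (Θ : Set (L.Term ℕ × L.Term ℕ))
    (H K : Type) (_ : L.Structure H) (_ : L.Structure K) (n : ℕ) (μ : Fin n → H) (ν : Fin n → K),
    FGFree L Θ H ∧ FGFree L Θ K ∧ Isotypic L H K ∧ SameType L μ ν ∧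
      ¬ ∃ σ : H ≃[L] K, σ ∘ μ = ν := by
  have hF : FGFree LL TT W := by
    refine ⟨?_, 1, ![none], fun A _ hA v => ?_⟩
    · rintro _ ⟨p, r, rfl⟩ v
      simp only [ap_real]
      change op p (op r (v 0)) = op _ (v 0)
      simp [op, par]
    · refine ⟨⟨fun w => Option.elim w (v 0) fun p => Structure.funMap (L := LL) (n := 1) p ![v 0],
        ?_, fun r => Empty.elim r⟩, by funext i; fin_cases i; rfl, fun φ hφ => ?_⟩
      · intro n f x
        match n, f with
        | 0, f => exact Empty.elim f
        | _ + 2, f => exact Empty.elim f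
        | 1, f =>
          obtain ⟨w, rfl⟩ : ∃ w, x = ![w] := ⟨x 0, by funext i; fin_cases i; rfl⟩
          rw [cv]
          rcases w with _ | r
          · change Structure.funMap (L := LL) (n := 1) (f.1, xor f.2 false) _ = _
            rw [Bool.xor_false]
            rfl
          · have := hA _ ⟨f, r, rfl⟩ fun _ => v 0
            simp only [ap_real] at this
            exact this.symm
      · ext (_ | p)
        · exact congrFun hφ 0
        · have := φ.map_fun (n := 1) p ![none]
          rw [cv, show φ none = v 0 from congrFun hφ 0] at this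
          refine Eq.trans ?_ this
          change φ (some p) = φ (some (p.1, xor p.2 false))
          rw [Bool.xor_false]
  refine ⟨LL, fun _ => inferInstanceAs (IsEmpty Empty), TT, W, W, inferInstance, inferInstance, 1,
    ![some (0, false)], ![some (0, true)], hF, hF,
    fun n => ⟨fun μ => ⟨μ, fun _ => Iff.rfl⟩, fun μ => ⟨μ, fun _ => Iff.rfl⟩⟩, fun φ => ?_, ?_⟩
  · obtain ⟨k, h, hk⟩ := ((form_sw φ).and (eventually_gt_atTop 0)).exists
    unfold Formula.Realize
    rw [← h, Subsingleton.elim (sw k ∘ default) default]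
    refine iff_of_eq (congrArg (fun v => BoundedFormula.Realize φ v default) ?_)
    funext i
    fin_cases i
    simp [sw, hk]
  · rintro ⟨σ, hσ⟩
    obtain ⟨w, hw⟩ := σ.surjective none
    have h1 : ∀ p u, σ (op p u) = op p (σ u) := fun p u => σ.map_fun (n := 1) p ![u]
    rcases w with _ | p
    · have h2 : σ (op (0, false) none) = some (0, true) := congrFun hσ 0
      rw [h1, hw] at h2
      exact absurd (congrArg par h2) (by decide)
    · have h2 := h1 p none
      rw [show op p none = some p by simp [op, par], hw] at h2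
      exact absurd h2 (by simp [op])

end Pool.Agent.Results.MP_9f131e_lc.NotConj
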